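import Pool.Agent.Helper67.DO.DefsC

namespace Pool.Agent.Helper67.DO

open scoped BigOperators Real
open Filter

noncomputable section

theorem c1_pow8 (N : ℕ) : (8 : ℝ) ^ N = 2 ^ N * 4 ^ N := by
  rw [← mul_pow]; norm_num

theorem c1_x (s0 : ℝ) (N : ℕ) : gamC s0 N * (nC 1 N : ℝ) = s0 / 4 * 4 ^ N := by
  unfold gamC nC
  push_cast
  rw [one_mul, c1_pow8, pow_add]
  have h : (2 : ℝ) ^ N ≠ 0 := by positivity
  field_simp
  norm_num

theorem c1_gam_pos (s0 : ℝ) (h : 0 < s0) (N : ℕ) : 0 < gamC s0 N := by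
  unfold gamC; positivity

theorem c1_xtop (s0 : ℝ) (h : 0 < s0) : Tendsto (fun N : ℕ => s0 / 4 * 4 ^ N) atTop atTop := by
  have : Tendsto (fun N : ℕ => (4 : ℝ) ^ N) atTop atTop := tendsto_pow_atTop_atTop_of_one_lt (by norm_num)
  exact this.const_mul_atTop (by positivity)

theorem c1_qbound (s0 : ℝ) (h : 0 < s0) (N : ℕ) :
    qC s0 1 N ≤ 32 / (π * s0 ^ 2) * ((s0 / 4 * 4 ^ N) * Real.exp (-(π * (s0 / 4 * 4 ^ N))) +
      2 * π / 128 * ((s0 / 4 * 4 ^ N) ^ 2 * Real.exp (-(π * (s0 / 4 * 4 ^ N))))) := by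
  have hx := c1_x s0 N
  have hg := c1_gam_pos s0 h N
  set x : ℝ := s0 / 4 * 4 ^ N with hxd
  have hx0 : 0 < x := by rw [hxd]; positivity
  have he : π * gamC s0 N * (nC 1 N : ℝ) = π * x := by rw [mul_assoc, hx]
  have he2 : 2 * π * (nC 1 N : ℝ) * epsC s0 N = 2 * π / 128 * x := by
    unfold epsC
    rw [← hx]; ring
  have hinv : 2 / (π * gamC s0 N) ≤ 32 / (π * s0 ^ 2) * x := by
    rw [div_le_iff₀ (by positivity)]
    have h1 : s0 ^ 2 / 16 ≤ x * gamC s0 N := by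
      rw [hxd]; unfold gamC
      have h2 : (1 : ℝ) ≤ 2 ^ N := one_le_pow₀ (by norm_num)
      have h3 : (4 : ℝ) ^ N = 2 ^ N * 2 ^ N := by rw [← mul_pow]; norm_num
      have h4 : s0 / 4 * 4 ^ N * (s0 / 2 ^ (N + 2)) = s0 ^ 2 / 16 * 2 ^ N := by
        rw [h3, pow_add]
        field_simp
        norm_num
      rw [h4]
      have : 0 < s0 ^ 2 / 16 := by positivity
      nlinarith
    have h5 : 32 / (π * s0 ^ 2) * x * (π * gamC s0 N) = 32 / s0 ^ 2 * (x * gamC s0 N) := by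
      field_simp
    rw [h5]
    have h6 : (2 : ℝ) = 32 / s0 ^ 2 * (s0 ^ 2 / 16) := by field_simp; norm_num
    calc (2 : ℝ) = 32 / s0 ^ 2 * (s0 ^ 2 / 16) := h6
      _ ≤ 32 / s0 ^ 2 * (x * gamC s0 N) := mul_le_mul_of_nonneg_left h1 (by positivity)
  unfold qC
  rw [he, he2]
  have hE : 0 < Real.exp (-(π * x)) := Real.exp_pos _
  have hP : 0 < 1 + 2 * π / 128 * x := by positivity
  calc 2 / (π * gamC s0 N) * (1 + 2 * π / 128 * x) * Real.exp (-(π * x))
      ≤ 32 / (π * s0 ^ 2) * x * (1 + 2 * π / 128 * x) * Real.exp (-(π * x)) := by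
        gcongr
    _ = _ := by ring

theorem c1_qnn (s0 : ℝ) (h : 0 < s0) (N : ℕ) : 0 ≤ qC s0 1 N := by
  have hg := c1_gam_pos s0 h N
  unfold qC epsC
  positivity

theorem c1_qtend (s0 : ℝ) (h : 0 < s0) : Tendsto (fun N => qC s0 1 N) atTop (nhds 0) := by
  have hx := c1_xtop s0 h
  have h1 : Tendsto (fun y : ℝ => y * Real.exp (-(π * y))) atTop (nhds 0) := by
    have h0 := (Real.tendsto_pow_mul_exp_neg_atTop_nhds_zero 1).comp
      (tendsto_id.const_mul_atTop Real.pi_pos : Tendsto (fun y : ℝ => π * y) atTop atTop)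
    have h2 := h0.const_mul (1 / π)
    rw [mul_zero] at h2
    refine h2.congr fun y => ?_
    simp only [Function.comp, pow_one]
    field_simp
  have h2 : Tendsto (fun y : ℝ => y ^ 2 * Real.exp (-(π * y))) atTop (nhds 0) := by
    have h0 := (Real.tendsto_pow_mul_exp_neg_atTop_nhds_zero 2).comp
      (tendsto_id.const_mul_atTop Real.pi_pos : Tendsto (fun y : ℝ => π * y) atTop atTop)
    have h2 := h0.const_mul (1 / π ^ 2)
    rw [mul_zero] at h2
    refine h2.congr fun y => ?_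
    simp only [Function.comp]
    field_simp
  have h3 := ((h1.comp hx).add ((h2.comp hx).const_mul (2 * π / 128))).const_mul (32 / (π * s0 ^ 2))
  simp only [mul_zero, add_zero] at h3
  exact squeeze_zero (fun N => c1_qnn s0 h N) (fun N => c1_qbound s0 h N) h3

def c1_A (s0 : ℝ) (N : ℕ) : ℝ :=
  (dC 1 N : ℝ) * (4 * π * nC 1 N + 4 / delC s0 1 N * (1 + 2 * π * nC 1 N * epsC s0 N))

theorem c1_A_one (s0 : ℝ) (h : 0 < s0) (N : ℕ) : 1 ≤ c1_A s0 N := by
  have hg := c1_gam_pos s0 h N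
  have h1 : (1 : ℝ) ≤ dC 1 N := by unfold dC; push_cast; have : (0 : ℝ) ≤ nC 1 N := Nat.cast_nonneg _; linarith
  have h2 : (1 : ℝ) ≤ nC 1 N := by
    unfold nC; push_cast; rw [one_mul]; exact one_le_pow₀ (by norm_num)
  have h3 : 0 < epsC s0 N := by unfold epsC; positivity
  have h4 : 0 < delC s0 1 N := by unfold delC; positivity
  have h5 : (1 : ℝ) ≤ 4 * π * nC 1 N := by nlinarith [Real.pi_gt_three]
  have h6 : 0 ≤ 4 / delC s0 1 N * (1 + 2 * π * nC 1 N * epsC s0 N) := by positivity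
  unfold c1_A
  nlinarith

theorem c1_A_step (s0 : ℝ) (h : 0 < s0) (N : ℕ) : c1_A s0 (N + 1) ≤ 512 * c1_A s0 N := by
  have hg := c1_gam_pos s0 h N
  have hn : (nC 1 (N + 1) : ℝ) = 8 * nC 1 N := by
    unfold nC; push_cast; rw [pow_succ]; ring
  have hgs : gamC s0 (N + 1) = gamC s0 N / 2 := by
    unfold gamC
    rw [show N + 1 + 2 = (N + 2) + 1 by ring, pow_succ]
    field_simp
  have hes : epsC s0 (N + 1) = epsC s0 N / 2 := by
    unfold epsC; rw [hgs]; ring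
  have he : 0 < epsC s0 N := by unfold epsC; positivity
  have hnn : (0 : ℝ) ≤ nC 1 N := Nat.cast_nonneg _
  have hd : (dC 1 (N + 1) : ℝ) ≤ 8 * dC 1 N := by
    unfold dC; push_cast; rw [hn]; linarith
  have hd0 : (0 : ℝ) < dC 1 N := by unfold dC; positivity
  have hd1 : (0 : ℝ) < dC 1 (N + 1) := by unfold dC; positivity
  have hdel : 4 / delC s0 1 (N + 1) ≤ 16 * (4 / delC s0 1 N) := by
    unfold delC
    have e1 : 4 / (epsC s0 (N + 1) / (dC 1 (N + 1) : ℝ)) = 8 * dC 1 (N + 1) / epsC s0 N := by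
      rw [hes]; field_simp; norm_num
    have e2 : 16 * (4 / (epsC s0 N / (dC 1 N : ℝ))) = 64 * dC 1 N / epsC s0 N := by
      field_simp; norm_num
    rw [e1, e2]
    gcongr ?_ / _
    linarith
  have hp : 1 + 2 * π * (nC 1 (N + 1) : ℝ) * epsC s0 (N + 1) ≤ 4 * (1 + 2 * π * nC 1 N * epsC s0 N) := by
    rw [hn, hes]
    have : 2 * π * (8 * (nC 1 N : ℝ)) * (epsC s0 N / 2) = 4 * (2 * π * nC 1 N * epsC s0 N) := by ring
    rw [this]; linarith
  have hdelp : 0 < delC s0 1 N := by unfold delC; positivity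
  have hq0 : 0 < 1 + 2 * π * (nC 1 (N + 1) : ℝ) * epsC s0 (N + 1) := by
    rw [hes]; positivity
  have hB : 4 / delC s0 1 (N + 1) * (1 + 2 * π * (nC 1 (N + 1) : ℝ) * epsC s0 (N + 1)) ≤
      64 * (4 / delC s0 1 N * (1 + 2 * π * nC 1 N * epsC s0 N)) := by
    calc _ ≤ 16 * (4 / delC s0 1 N) * (4 * (1 + 2 * π * nC 1 N * epsC s0 N)) :=
          mul_le_mul hdel hp hq0.le (by positivity)
      _ = _ := by ring
  have hB0 : 0 ≤ 4 / delC s0 1 N * (1 + 2 * π * nC 1 N * epsC s0 N) := by positivity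
  have hC : 4 * π * (nC 1 (N + 1) : ℝ) + 4 / delC s0 1 (N + 1) * (1 + 2 * π * (nC 1 (N + 1) : ℝ) * epsC s0 (N + 1))
      ≤ 64 * (4 * π * nC 1 N + 4 / delC s0 1 N * (1 + 2 * π * nC 1 N * epsC s0 N)) := by
    have e1 : 4 * π * (nC 1 (N + 1) : ℝ) ≤ 64 * (4 * π * nC 1 N) := by
      rw [hn]
      have : 0 ≤ 4 * π * (nC 1 N : ℝ) := by positivity
      nlinarith
    linarith
  unfold c1_A
  have hC0 : 0 ≤ 64 * (4 * π * (nC 1 N : ℝ) + 4 / delC s0 1 N * (1 + 2 * π * nC 1 N * epsC s0 N)) := by positivity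
  calc _ ≤ (dC 1 (N + 1) : ℝ) * (64 * (4 * π * nC 1 N + 4 / delC s0 1 N * (1 + 2 * π * nC 1 N * epsC s0 N))) :=
        mul_le_mul_of_nonneg_left hC hd1.le
    _ ≤ (8 * dC 1 N) * (64 * (4 * π * nC 1 N + 4 / delC s0 1 N * (1 + 2 * π * nC 1 N * epsC s0 N))) :=
        mul_le_mul_of_nonneg_right hd hC0
    _ = _ := by ring

theorem st_C1 : ST_C1 := by
  intro s0 h _
  refine ⟨1, le_rfl, ?_⟩
  have hK0 : ∀ N, 0 ≤ KC s0 1 N := fun N => Finset.prod_nonneg fun M _ => c1_qnn s0 h M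
  have hS : Summable (fun N => c1_A s0 N * KC s0 1 N) := by
    refine summable_of_ratio_norm_eventually_le (r := 1 / 2) (by norm_num) ?_
    have hev : ∀ᶠ N in atTop, qC s0 1 N < 1 / 1024 :=
      (c1_qtend s0 h).eventually (gt_mem_nhds (by norm_num))
    filter_upwards [hev] with N hN
    have hA0 : 0 ≤ c1_A s0 N := le_trans zero_le_one (c1_A_one s0 h N)
    have hA1 : 0 ≤ c1_A s0 (N + 1) := le_trans zero_le_one (c1_A_one s0 h (N + 1))
    rw [Real.norm_of_nonneg (mul_nonneg hA1 (hK0 _)), Real.norm_of_nonneg (mul_nonneg hA0 (hK0 _))]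
    have hK : KC s0 1 (N + 1) = KC s0 1 N * qC s0 1 N := by
      unfold KC; rw [Finset.prod_range_succ]
    rw [hK]
    have hq := c1_qnn s0 h N
    calc c1_A s0 (N + 1) * (KC s0 1 N * qC s0 1 N)
        ≤ (512 * c1_A s0 N) * (KC s0 1 N * (1 / 1024)) := by
          refine mul_le_mul (c1_A_step s0 h N) ?_ (mul_nonneg (hK0 N) hq) (by positivity)
          exact mul_le_mul_of_nonneg_left hN.le (hK0 N)
      _ = 1 / 2 * (c1_A s0 N * KC s0 1 N) := by ring
  refine ⟨?_, hS⟩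
  refine squeeze_zero hK0 (fun N => ?_) hS.tendsto_atTop_zero
  have := c1_A_one s0 h N
  nlinarith [hK0 N]

end

end Pool.Agent.Helper67.DO
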